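import Mathlib

set_option autoImplicit false

/-!
# Exponential stability does not imply `L₂`-stability for time-varying Lur'e systems

We give admissible data for which the null solution of the unforced system
`x' = A_o x - k(t) b φ(cᵀ x)` is exponentially stable and the forced system is not `L₂`-stable:
`n = 1`, `p = s - 1`, `q = 1`, `k(t) = 1 + e⁻ᵗ`, `φ(σ) = 3 σ` for `σ ≠ 1` and `φ(1) = 1`.
-/

namespace Pool.Agent.Results.MP_d56d33_an.ExpNotL2

open MeasureTheory Set Polynomial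

/-- The components of the right-hand side `A_o x - k(t) b φ(cᵀ x) + f(t) b` along `x`, where `A_o` is
the companion matrix of `p`, `b` is the last unit vector and `c` is the coefficient vector of `q`. -/
noncomputable def rhs (n : ℕ) (p q : ℝ[X]) (k φ f : ℝ → ℝ) (x : ℝ → EuclideanSpace ℝ (Fin n))
    (t : ℝ) (i : Fin n) : ℝ :=
  if h : (i : ℕ) + 1 < n then x t ⟨i + 1, h⟩
  else -(∑ j : Fin n, p.coeff j * x t j) - k t * φ (∑ j : Fin n, q.coeff j * x t j) + f t

/-- `x` is a solution through `(t₀, x₀)` on `[t₀, T)`: `φ(cᵀ x)` and the right-hand side are locally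
integrable and `x` is `x₀` plus the integral of the right-hand side. -/
def IsSol (n : ℕ) (p q : ℝ[X]) (k φ f : ℝ → ℝ) (t₀ : ℝ) (T : EReal)
    (x₀ : EuclideanSpace ℝ (Fin n)) (x : ℝ → EuclideanSpace ℝ (Fin n)) : Prop :=
  (t₀ : EReal) < T ∧ x t₀ = x₀ ∧ ∀ t : ℝ, t₀ ≤ t → (t : EReal) < T →
    IntervalIntegrable (fun s => φ (∑ j : Fin n, q.coeff j * x s j)) volume t₀ t ∧
    ∀ i, IntervalIntegrable (fun s => rhs n p q k φ f x s i) volume t₀ t ∧
      x t i = x₀ i + ∫ s in t₀..t, rhs n p q k φ f x s i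

/-- Admissible gain: bounded below by a positive constant and absolutely continuous on `[0, ∞)`
(with an integrable derivative `g`). -/
def AdmGain (k : ℝ → ℝ) : Prop :=
  (∃ ε > 0, ∀ t, 0 ≤ t → ε ≤ k t) ∧
    ∃ g : ℝ → ℝ, IntegrableOn g (Ici 0) ∧ ∀ t, 0 ≤ t → k t = k 0 + ∫ s in (0 : ℝ)..t, g s

/-- Admissible nonlinearity: the sector condition. -/
def AdmPhi (φ : ℝ → ℝ) : Prop :=
  φ 0 = 0 ∧ ∃ η₁ η₂ : ℝ, 0 < η₁ ∧ η₁ < η₂ ∧ ∀ σ, σ ≠ 0 → η₁ * σ ^ 2 ≤ σ * φ σ ∧ σ * φ σ ≤ η₂ * σ ^ 2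

/-- Exponential stability of the null solution of the unforced system. -/
def ExpStable (n : ℕ) (p q : ℝ[X]) (k φ : ℝ → ℝ) : Prop :=
  ∃ ε₁ ε₂ : ℝ, 0 < ε₁ ∧ 0 < ε₂ ∧ ∀ (t₀ : ℝ) (T : EReal) (x₀ : EuclideanSpace ℝ (Fin n))
    (x : ℝ → EuclideanSpace ℝ (Fin n)), 0 ≤ t₀ → IsSol n p q k φ (fun _ => 0) t₀ T x₀ x →
      ∀ t : ℝ, t₀ ≤ t → (t : EReal) < T → ‖x t‖ ≤ ε₂ * ‖x₀‖ * Real.exp (-ε₁ * (t - t₀))

/-- `L₂`-stability of the forced system. -/
def L2Stable (n : ℕ) (p q : ℝ[X]) (k φ : ℝ → ℝ) : Prop :=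
  ∀ η₁ η₂ : ℝ, 0 ≤ η₁ → 0 ≤ η₂ → ∃ η₃ : ℝ, ∀ (f : ℝ → ℝ) (t₀ : ℝ) (T : EReal)
    (x₀ : EuclideanSpace ℝ (Fin n)) (x : ℝ → EuclideanSpace ℝ (Fin n)), Measurable f →
      ∫⁻ s in Ici (0 : ℝ), ENNReal.ofReal (f s ^ 2) < ENNReal.ofReal η₂ → 0 ≤ t₀ →
      IsSol n p q k φ f t₀ T x₀ x → ‖x₀‖ < η₁ →
        ∫⁻ s in {s : ℝ | t₀ ≤ s ∧ (s : EReal) < T}, ENNReal.ofReal (‖x s‖ ^ 2) ≤ ENNReal.ofReal η₃

/-- the gain of the example -/
noncomputable def kk (t : ℝ) : ℝ := 1 + Real.exp (-t)

/-- the nonlinearity of the example -/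
noncomputable def ph (σ : ℝ) : ℝ := if σ = 1 then 1 else 3 * σ

lemma adm_kk : AdmGain kk := by
  refine ⟨⟨1, one_pos, fun t _ => ?_⟩, fun s => -Real.exp (-s), ?_, ?_⟩
  · unfold kk
    have := Real.exp_pos (-t)
    linarith
  · rw [integrableOn_Ici_iff_integrableOn_Ioi]
    exact (integrableOn_exp_neg_Ioi 0).neg
  · intro t _
    have h : ∫ s in (0 : ℝ)..t, -Real.exp (-s) = Real.exp (-t) - Real.exp (-0) := by
      apply intervalIntegral.integral_eq_sub_of_hasDerivAt
      · intro s _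
        have := (hasDerivAt_neg s).exp
        simpa using this
      · exact Continuous.intervalIntegrable (by fun_prop) _ _
    rw [h]
    unfold kk
    ring

lemma adm_ph : AdmPhi ph := by
  refine ⟨by unfold ph; norm_num, 1, 3, one_pos, by norm_num, ?_⟩
  intro σ _
  unfold ph
  split_ifs with h
  · subst h; norm_num
  · constructor <;> nlinarith [sq_nonneg σ]

lemma norm_one_dim (x : EuclideanSpace ℝ (Fin 1)) : ‖x‖ = |x 0| := by
  rw [EuclideanSpace.norm_eq, Fin.sum_univ_one, Real.norm_eq_abs, sq_abs, Real.sqrt_sq_eq_abs]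

lemma rhs_eq (f : ℝ → ℝ) (x : ℝ → EuclideanSpace ℝ (Fin 1)) (t : ℝ) :
    rhs 1 (X - C 1) 1 kk ph f x t 0 = x t 0 - kk t * ph (x t 0) + f t := by
  unfold rhs
  rw [dif_neg (by simp)]
  simp

/-- the key estimate -/
lemma decay {t₀ t y₀ : ℝ} (htt : t₀ ≤ t) (y : ℝ → ℝ) (hy0 : y t₀ = y₀)
    (hint : IntervalIntegrable (fun s => y s - kk s * ph (y s)) volume t₀ t)
    (heq : ∀ τ ∈ Icc t₀ t, y τ = y₀ + ∫ s in t₀..τ, (y s - kk s * ph (y s))) :
    |y t| ≤ |y₀| * Real.exp (-2 * (t - t₀)) := by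
  set G : ℝ → ℝ := fun s => y s - kk s * ph (y s) with hG
  have hintE : ∀ a ∈ Icc t₀ t, ∀ b ∈ Icc t₀ t, IntervalIntegrable G volume a b := by
    intro a ha b hb
    apply hint.mono_set
    rw [uIcc_of_le htt]
    exact uIcc_subset_Icc ha hb
  have hcont : ContinuousOn y (Icc t₀ t) := by
    have h1 : ContinuousOn (fun τ => y₀ + ∫ s in t₀..τ, G s) (Icc t₀ t) := by
      apply continuousOn_const.add
      have := intervalIntegral.continuousOn_primitive_interval' hint (left_mem_uIcc (a := t₀) (b := t))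
      rwa [uIcc_of_le htt] at this
    exact h1.congr heq
  have hdiff : ∀ a ∈ Icc t₀ t, ∀ b ∈ Icc t₀ t, y b - y a = ∫ s in a..b, G s := by
    intro a ha b hb
    rw [heq a ha, heq b hb]
    have h1 := intervalIntegral.integral_add_adjacent_intervals 
      (hintE t₀ (left_mem_Icc.2 htt) a ha) (hintE a ha b hb)
    rw [← h1]
    ring
  have hk1 : ∀ s, 1 < kk s := by
    intro s
    unfold kk
    have := Real.exp_pos (-s)
    linarith
  have hGneg : ∀ s, 0 < y s → G s < 0 := by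
    intro s hs
    have hk := hk1 s
    show y s - kk s * ph (y s) < 0
    unfold ph
    split_ifs with h
    · rw [h]; linarith
    · nlinarith
  have hdec : ∀ a ∈ Icc t₀ t, ∀ b ∈ Icc t₀ t, a < b → (∀ s ∈ Ioc a b, 0 < y s) → y b < y a := by
    intro a ha b hb hab hpos
    have h1 := intervalIntegral.intervalIntegral_pos_of_pos_on (f := fun s => -G s) 
      (hintE a ha b hb).neg (fun s hs => by have := hGneg s (hpos s ⟨hs.1, hs.2.le⟩); linarith) hab
    rw [intervalIntegral.integral_neg, ← hdiff a ha b hb] at h1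
    linarith
  -- at most one time with value one
  have huniq : ∀ a ∈ Icc t₀ t, ∀ b ∈ Icc t₀ t, a < b → y a = 1 → y b = 1 → False := by
    intro a ha b hb hab hya hyb
    have hsub : Icc a b ⊆ Icc t₀ t := Icc_subset_Icc ha.1 hb.2
    set K := {u ∈ Icc a b | y u ≤ 0} with hK
    rcases K.eq_empty_or_nonempty with hKe | hKne
    · have h1 := hdec a ha b hb hab (fun s hs => by
        by_contra hcon
        have : s ∈ K := ⟨⟨hs.1.le, hs.2⟩, not_lt.1 hcon⟩
        rw [hKe] at this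
        exact this)
      linarith
    · have hKc : IsCompact K := by
        have h1 : IsClosed K := by
          have := (hcont.mono hsub).preimage_isClosed_of_isClosed isClosed_Icc (isClosed_Iic (a := (0 : ℝ)))
          exact this
        exact isCompact_Icc.of_isClosed_subset h1 (fun u hu => hu.1)
      obtain ⟨r, hr, hmax⟩ := hKc.exists_isGreatest hKne
      have hrb : r < b := by
        rcases hr.1.2.lt_or_eq with h | h
        · exact h
        · exfalso
          have h3 := hr.2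
          rw [h, hyb] at h3
          linarith
      have h1 := hdec r (hsub hr.1) b hb hrb (fun s hs => by
        by_contra hcon
        have h2 : s ∈ K := ⟨⟨hr.1.1.trans hs.1.le, hs.2⟩, not_lt.1 hcon⟩
        have := hmax h2
        linarith [hs.1])
      have := hr.2
      linarith
  have hnull : volume {s ∈ Icc t₀ t | y s = 1} = 0 := by
    apply Set.Subsingleton.measure_zero
    rintro a ⟨ha, hya⟩ b ⟨hb, hyb⟩
    rcases lt_trichotomy a b with h | h | h
    · exact (huniq a ha b hb h hya hyb).elim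
    · exact h
    · exact (huniq b hb a ha h hyb hya).elim
  -- the smooth equation
  set g : ℝ → ℝ := fun s => (1 - 3 * kk s) * y s with hg
  have hsmooth : ∀ τ ∈ Icc t₀ t, y τ = y₀ + ∫ s in t₀..τ, g s := by
    intro τ hτ
    rw [heq τ hτ]
    congr 1
    apply intervalIntegral.integral_congr_ae
    rw [uIoc_of_le hτ.1]
    have h1 : ∀ᵐ s ∂(volume : Measure ℝ), s ∉ {s ∈ Icc t₀ t | y s = 1} := 
      measure_eq_zero_iff_ae_notMem.1 hnull
    filter_upwards [h1] with s hs hs2
    have hsI : s ∈ Icc t₀ t := ⟨hs2.1.le, hs2.2.trans hτ.2⟩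
    have hne : y s ≠ 1 := fun h => hs ⟨hsI, h⟩
    show y s - kk s * ph (y s) = (1 - 3 * kk s) * y s
    unfold ph
    rw [if_neg hne]
    ring
  have hkc : Continuous kk := by unfold kk; fun_prop
  have hgc : ContinuousOn g (Icc t₀ t) := by
    apply ContinuousOn.mul _ hcont
    exact (by fun_prop : Continuous fun s => 1 - 3 * kk s).continuousOn
  have hgint : IntervalIntegrable g volume t₀ t := by
    apply ContinuousOn.intervalIntegrable
    rwa [uIcc_of_le htt]
  have hderiv : ∀ τ ∈ Ioo t₀ t, HasDerivAt y (g τ) τ := by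
    intro τ hτ
    have h1 : HasDerivAt (fun u => y₀ + ∫ s in t₀..u, g s) (g τ) τ := by
      apply HasDerivAt.const_add
      apply intervalIntegral.integral_hasDerivAt_right
      · apply hgint.mono_set
        rw [uIcc_of_le htt, uIcc_of_le hτ.1.le]
        exact Icc_subset_Icc le_rfl hτ.2.le
      · exact (hgc.mono Ioo_subset_Icc_self).stronglyMeasurableAtFilter isOpen_Ioo τ hτ
      · exact (hgc τ (Ioo_subset_Icc_self hτ)).continuousAt (Icc_mem_nhds hτ.1 hτ.2)
    apply h1.congr_of_eventuallyEq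
    filter_upwards [Icc_mem_nhds hτ.1 hτ.2] with u hu
    exact hsmooth u hu
  have hanti : AntitoneOn (fun τ => y τ ^ 2 * Real.exp (4 * (τ - t₀))) (Icc t₀ t) := by
    apply antitoneOn_of_deriv_nonpos (convex_Icc _ _)
    · exact (hcont.pow 2).mul (by fun_prop : Continuous fun τ => Real.exp (4 * (τ - t₀))).continuousOn
    · intro τ hτ
      rw [interior_Icc] at hτ
      have h2 : HasDerivAt (fun τ => Real.exp (4 * (τ - t₀))) (Real.exp (4 * (τ - t₀)) * 4) τ := by
        have := (((hasDerivAt_id τ).sub_const t₀).const_mul 4).exp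
        simpa using this
      exact (((hderiv τ hτ).pow 2).mul h2).differentiableAt.differentiableWithinAt
    · intro τ hτ
      rw [interior_Icc] at hτ
      have h2 : HasDerivAt (fun τ => Real.exp (4 * (τ - t₀))) (Real.exp (4 * (τ - t₀)) * 4) τ := by
        have := (((hasDerivAt_id τ).sub_const t₀).const_mul 4).exp
        simpa using this
      have h3 := (((hderiv τ hτ).pow 2).mul h2).deriv
      have h4 : deriv (fun τ => y τ ^ 2 * Real.exp (4 * (τ - t₀))) τ = 
          (6 - 6 * kk τ) * (y τ ^ 2 * Real.exp (4 * (τ - t₀))) := by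
        refine Eq.trans ?_ (h3.trans ?_)
        · rfl
        · simp only [hg, Pi.pow_apply]
          push_cast
          ring
      rw [h4]
      have h5 : 0 ≤ y τ ^ 2 * Real.exp (4 * (τ - t₀)) := by positivity
      have := hk1 τ
      nlinarith
  have hfin := hanti (left_mem_Icc.2 htt) (right_mem_Icc.2 htt) htt
  simp only [sub_self, mul_zero, Real.exp_zero, mul_one, hy0] at hfin
  have hpos : 0 ≤ |y₀| * Real.exp (-2 * (t - t₀)) := by positivity
  apply abs_le_of_sq_le_sq _ hpos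
  have e1 : Real.exp (4 * (t - t₀)) * Real.exp (-2 * (t - t₀)) ^ 2 = 1 := by
    rw [← Real.exp_nat_mul, ← Real.exp_add]
    push_cast
    rw [show 4 * (t - t₀) + 2 * (-2 * (t - t₀)) = 0 by ring, Real.exp_zero]
  calc y t ^ 2 = (y t ^ 2 * Real.exp (4 * (t - t₀))) * Real.exp (-2 * (t - t₀)) ^ 2 := by
        rw [mul_assoc, e1, mul_one]
    _ ≤ y₀ ^ 2 * Real.exp (-2 * (t - t₀)) ^ 2 := by gcongr
    _ = (|y₀| * Real.exp (-2 * (t - t₀))) ^ 2 := by rw [mul_pow, sq_abs]

theorem result : ∃ (n : ℕ) (p q : ℝ[X]) (k φ : ℝ → ℝ), p.Monic ∧ p.natDegree = n ∧ q.natDegree < n ∧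
    AdmGain k ∧ AdmPhi φ ∧ ExpStable n p q k φ ∧ ¬ L2Stable n p q k φ := by
  refine ⟨1, X - C 1, 1, kk, ph, monic_X_sub_C 1, natDegree_X_sub_C 1, by simp, adm_kk, adm_ph, ?_, ?_⟩
  · refine ⟨2, 1, two_pos, one_pos, ?_⟩
    rintro t₀ T x₀ x ht₀ ⟨hT, hx0, hsol⟩ t htt htT
    rw [norm_one_dim, norm_one_dim, one_mul]
    have h1 : (fun s => rhs 1 (X - C 1) 1 kk ph (fun _ => 0) x s 0) = 
        fun s => x s 0 - kk s * ph (x s 0) := by
      funext s
      rw [rhs_eq, add_zero]
    apply decay htt (fun s => x s 0) (by rw [hx0])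
    · have := ((hsol t htt htT).2 0).1
      rwa [h1] at this
    · intro τ hτ
      have := ((hsol τ hτ.1 (lt_of_le_of_lt (by exact_mod_cast hτ.2) htT)).2 0).2
      rwa [h1] at this
  · intro hL
    obtain ⟨η₃, h⟩ := hL 2 2 (by norm_num) (by norm_num)
    set x : ℝ → EuclideanSpace ℝ (Fin 1) := fun _ => WithLp.toLp 2 fun _ => 1 with hx
    have hTpos : 0 < |η₃| + 1 := by positivity
    have hn : ∀ s, ‖x s‖ = 1 := by
      intro s
      rw [norm_one_dim]
      simp [hx]
    have hsol : IsSol 1 (X - C 1) 1 kk ph (fun t => Real.exp (-t)) 0 ((|η₃| + 1 : ℝ) : EReal) (x 0) x := by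
      refine ⟨by exact_mod_cast hTpos, rfl, fun t ht _ => ⟨?_, fun i => ?_⟩⟩
      · exact (continuous_const (y := ph (∑ j : Fin 1, (1 : ℝ[X]).coeff j * x 0 j))).intervalIntegrable _ _
      · have hi : i = 0 := Subsingleton.elim _ _
        subst hi
        have h1 : (fun s => rhs 1 (X - C 1) 1 kk ph (fun t => Real.exp (-t)) x s 0) = fun _ => 0 := by
          funext s
          rw [rhs_eq]
          simp [hx, kk, ph]
        rw [h1]
        refine ⟨continuous_const.intervalIntegrable _ _, ?_⟩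
        simp [hx]
    have hf : ∫⁻ s in Ici (0 : ℝ), ENNReal.ofReal (Real.exp (-s) ^ 2) < ENNReal.ofReal 2 := by
      have h1 : ∫⁻ s in Ici (0 : ℝ), ENNReal.ofReal (Real.exp (-s) ^ 2) ≤ 
          ∫⁻ s in Ioi (0 : ℝ), ENNReal.ofReal (Real.exp (-s)) := by
        rw [setLIntegral_congr (Ioi_ae_eq_Ici (a := (0 : ℝ))).symm]
        apply setLIntegral_mono (by fun_prop)
        intro s hs
        apply ENNReal.ofReal_le_ofReal
        have h2 : Real.exp (-s) ≤ 1 := Real.exp_le_one_iff.2 (by have : (0:ℝ) < s := hs; linarith)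
        have h3 := Real.exp_pos (-s)
        nlinarith
      refine h1.trans_lt ?_
      rw [← ofReal_integral_eq_lintegral_ofReal (integrableOn_exp_neg_Ioi 0)
        (Filter.Eventually.of_forall fun s => (Real.exp_pos _).le), integral_exp_neg_Ioi_zero]
      exact (ENNReal.ofReal_lt_ofReal_iff (by norm_num)).2 (by norm_num)
    have h2 := h (fun t : ℝ => Real.exp (-t)) 0 ((|η₃| + 1 : ℝ) : EReal) (x 0) x 
      (by fun_prop : Measurable fun t : ℝ => Real.exp (-t)) hf le_rfl hsol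
      ((hn 0).trans_lt (by norm_num))
    have e : {s : ℝ | (0 : ℝ) ≤ s ∧ (s : EReal) < ((|η₃| + 1 : ℝ) : EReal)} = Ico 0 (|η₃| + 1) := by
      ext s
      simp only [mem_Ico, EReal.coe_lt_coe_iff]
      rfl
    rw [e] at h2
    simp only [hn, one_pow, ENNReal.ofReal_one, lintegral_const, one_mul, Measure.restrict_apply_univ, 
      Real.volume_Ico, sub_zero] at h2
    have h3 := (ENNReal.ofReal_le_ofReal_iff' ).1 h2
    rcases h3 with h3 | h3
    · have := le_abs_self η₃
      linarith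
    · linarith

end Pool.Agent.Results.MP_d56d33_an.ExpNotL2
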